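import Mathlib
import Pool.Agent.H73.G.R8.TH55.EL.Endo2
import Pool.Agent.H73.G.R8.TH921.J1794

/-!
# Points of the elliptic curve with values in the field of elliptic functions
-/

set_option autoImplicit false

open Filter
open scoped Topology PeriodPair

noncomputable section

namespace Pool.Agent.TH813.Ell

open H667R3 Pool.Agent.W245.EB

variable {L : PeriodPair}

/-- **Elliptic functions on the curve**: a point of the curve with values in the field of elliptic
functions is given by a multiplication of the lattice, up to a translation. -/
theorem endo {A B : ℂ → ℂ} (hA : Ellip L A) (hB : Ellip L B)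
    (h : (fun z => B z ^ 2) =ᶠ[codiscrete ℂ] fun z => 4 * A z ^ 3 - L.g₂ * A z - L.g₃) :
    ∃ c : ℂ, (∀ w ∈ L.lattice, c * w ∈ L.lattice) ∧
      _root_.deriv A =ᶠ[codiscrete ℂ] fun z => c * B z :=
  Pool.Agent.TH55.EL.endo hA hB h

end Pool.Agent.TH813.Ell
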