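import Mathlib
import Pool.Agent.H73.G.R8.H327R2.SC.MultVec

/-!
# A theorem of Rosenlicht: logarithmic differentials and exact differentials

Let `K` be a field of complex numbers, `β_j` elements of `K`, `u_j` nonzero and `x` complex numbers
such that `D x = ∑ β_j D u_j / u_j` for all derivations `D` of `ℂ` over `K`.  Then all these `D` kill
`x`, and `∑ ψ(β_j) D u_j / u_j = 0` for every `ℚ`-linear map `ψ : ℂ → ℚ`.
-/

set_option autoImplicit false

namespace Pool.Agent.TH813.Ros

open Polynomial Finset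

section poly

variable {k : Type*} [Field k] {ι : Type*} [Fintype ι] [DecidableEq ι]

/-- logarithmic derivatives vanish at infinity -/
theorem polyInf (R : ι → k[X]) (hR : ∀ i, R i ≠ 0) (γ : ι → k) (c : k)
    (h : ∑ i, C (γ i) * (derivative (R i) * ∏ l ∈ univ.erase i, R l) = C c * ∏ l, R l) :
    c = 0 := by
  by_contra hc
  have hprod : ∏ l, R l ≠ 0 := prod_ne_zero_iff.2 (fun i _ => hR i)
  have h1 : (C c * ∏ l, R l).degree = (∏ l, R l).degree := by
    rw [degree_mul, degree_C hc, zero_add]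
  have h2 : (∑ i, C (γ i) * (derivative (R i) * ∏ l ∈ univ.erase i, R l)).degree <
      (∏ l, R l).degree := by
    refine lt_of_le_of_lt (degree_sum_le _ _) ?_
    rw [Finset.sup_lt_iff (bot_lt_iff_ne_bot.2 (degree_ne_bot.2 hprod))]
    intro i _
    have h3 : (C (γ i) * (derivative (R i) * ∏ l ∈ univ.erase i, R l)).degree ≤
        (derivative (R i) * ∏ l ∈ univ.erase i, R l).degree := by
      refine (degree_mul_le _ _).trans ?_
      calc (C (γ i)).degree + _ ≤ 0 + (derivative (R i) * ∏ l ∈ univ.erase i, R l).degree := by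
            gcongr; exact degree_C_le
        _ = _ := zero_add _
    refine lt_of_le_of_lt h3 ?_
    rw [← mul_prod_erase univ R (mem_univ i), degree_mul, degree_mul]
    refine WithBot.add_lt_add_right ?_ (degree_derivative_lt (hR i))
    exact degree_ne_bot.2 (prod_ne_zero_iff.2 (fun l _ => hR l))
  rw [h, h1] at h2
  exact lt_irrefl _ h2

/-- residues at zero -/
theorem polyZero (R : ι → k[X]) (hR : ∀ i, R i ≠ 0) (γ : ι → k)
    (h : ∑ i, C (γ i) * (derivative (R i) * ∏ l ∈ univ.erase i, R l) = 0) :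
    ∑ i, γ i * ((R i).rootMultiplicity 0 : k) = 0 := by
  have hex : ∀ i, ∃ S : k[X], R i = X ^ (R i).rootMultiplicity 0 * S ∧ S.eval 0 ≠ 0 := by
    intro i
    obtain ⟨S, hS, hS2⟩ := exists_eq_pow_rootMultiplicity_mul_and_not_dvd (R i) (hR i) 0
    rw [C_0, sub_zero] at hS hS2
    refine ⟨S, hS, fun h0 => hS2 ?_⟩
    rw [X_dvd_iff, coeff_zero_eq_eval_zero]
    exact h0
  choose S hS hS0 using hex
  set m : ι → ℕ := fun i => (R i).rootMultiplicity 0 with hm
  have hder : ∀ i, X * derivative (R i) = X ^ m i * (C (m i : k) * S i + X * derivative (S i)) := by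
    intro i
    conv_lhs => rw [hS i]
    rw [derivative_mul, derivative_X_pow]
    rcases Nat.eq_zero_or_pos (m i) with h0 | h0
    · have h0' : (R i).rootMultiplicity 0 = 0 := h0
      rw [h0', h0]
      simp
    · obtain ⟨q, hq⟩ := Nat.exists_eq_succ_of_ne_zero h0.ne'
      have h0' : (R i).rootMultiplicity 0 = q + 1 := hq
      rw [h0', hq]
      simp only [Nat.add_sub_cancel, Nat.succ_eq_add_one]
      ring
  have hX : (X : k[X]) ≠ 0 := X_ne_zero
  have h2 : (∏ l, X ^ m l) * ∑ i, C (γ i) * ((C (m i : k) * S i + X * derivative (S i)) *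
      ∏ l ∈ univ.erase i, S l) = 0 := by
    have h3 : X * (∑ i, C (γ i) * (derivative (R i) * ∏ l ∈ univ.erase i, R l)) = 0 := by
      rw [h, mul_zero]
    rw [← h3, mul_sum, mul_sum]
    refine sum_congr rfl (fun i _ => ?_)
    have e1 : ∏ l ∈ univ.erase i, R l = (∏ l ∈ univ.erase i, X ^ m l) *
        ∏ l ∈ univ.erase i, S l := by
      rw [← prod_mul_distrib]
      exact prod_congr rfl (fun l _ => hS l)
    have e2 : ∏ l, (X : k[X]) ^ m l = X ^ m i * ∏ l ∈ univ.erase i, X ^ m l :=
      (mul_prod_erase univ (fun l => (X : k[X]) ^ m l) (mem_univ i)).symm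
    rw [e1, e2]
    have := hder i
    linear_combination (-(C (γ i) * (∏ l ∈ univ.erase i, X ^ m l) *
        ∏ l ∈ univ.erase i, S l)) * this
  have h4 := (mul_eq_zero.1 h2).resolve_left (prod_ne_zero_iff.2 (fun l _ => pow_ne_zero _ hX))
  have h5 := congrArg (eval 0) h4
  rw [eval_finsetSum, eval_zero] at h5
  have h6 : ∀ i, eval 0 (C (γ i) * ((C (m i : k) * S i + X * derivative (S i)) *
      ∏ l ∈ univ.erase i, S l)) = γ i * (m i : k) * ∏ l, (S l).eval 0 := by
    intro i
    rw [← mul_prod_erase univ (fun l => (S l).eval 0) (mem_univ i)]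
    simp only [eval_mul, eval_C, eval_add, eval_X, zero_mul, add_zero, eval_prod]
    ring
  rw [sum_congr rfl (fun i _ => h6 i), ← sum_mul] at h5
  exact (mul_eq_zero.1 h5).resolve_right (prod_ne_zero_iff.2 (fun l _ => hS0 l))

end poly

/-- automorphisms whose products give norms -/
theorem norms {E : Type*} [Field E] [Algebra E ℂ] [CharZero E] [Algebra.IsAlgebraic E ℂ]
    {n : ℕ} (u : Fin n → ℂ) :
    ∃ (ι : Type) (_ : Fintype ι) (_ : Nonempty ι) (τ : ι → (ℂ ≃ₐ[E] ℂ)),
      ∀ j, ∃ e : E, ∏ i, τ i (u j) = algebraMap E ℂ e := by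
  have : IsAlgClosure E ℂ := ⟨inferInstance, inferInstance⟩
  have hN : Normal E ℂ := IsAlgClosure.normal E ℂ
  let L := IntermediateField.adjoin E (Set.range u)
  have hL : FiniteDimensional E L := by
    apply IntermediateField.finiteDimensional_adjoin
    intro x _
    exact (Algebra.IsAlgebraic.isAlgebraic x).isIntegral
  let F := IntermediateField.normalClosure E L ℂ
  have hF1 : FiniteDimensional E F := inferInstance
  have hF2 : Normal E F := inferInstance
  have hG : IsGalois E F := ⟨⟩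
  have hLF : L ≤ F := by
    intro y hy
    exact L.val.fieldRange_le_normalClosure ⟨⟨y, hy⟩, rfl⟩
  refine ⟨F ≃ₐ[E] F, inferInstance, ⟨AlgEquiv.refl⟩, fun σ => AlgEquiv.liftNormal σ ℂ,
    fun j => ?_⟩
  have huj : u j ∈ F := hLF (IntermediateField.subset_adjoin _ _ ⟨j, rfl⟩)
  refine ⟨Algebra.norm E (⟨u j, huj⟩ : F), ?_⟩
  have h1 := Algebra.norm_eq_prod_automorphisms E (⟨u j, huj⟩ : F)
  have h2 := congrArg (algebraMap F ℂ) h1
  rw [map_prod, ← IsScalarTower.algebraMap_apply] at h2
  rw [h2]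
  refine prod_congr rfl (fun σ _ => ?_)
  exact AlgEquiv.liftNormal_commutes σ ℂ (⟨u j, huj⟩ : F)

section one

variable {K₁ : Type*} [Field K₁] [Algebra K₁ ℂ] [CharZero K₁]

/-- a derivation is determined by its value at `x` -/
theorem der_unique {x : ℂ} (halg : Algebra.IsAlgebraic (IntermediateField.adjoin K₁ {x}) ℂ)
    (D : Derivation K₁ ℂ ℂ) (h : D x = 0) (w : ℂ) : D w = 0 := by
  apply Pool.Agent.H327R2.SC.der_alg (IntermediateField.adjoin K₁ {x}) D ?_
    (halg.isAlgebraic w)
  intro y hy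
  induction hy using IntermediateField.adjoin_induction with
  | mem z hz => rw [Set.mem_singleton_iff.1 hz]; exact h
  | algebraMap a => exact D.map_algebraMap a
  | add a b _ _ ha hb => rw [map_add, ha, hb, add_zero]
  | inv a _ ha => rw [Derivation.leibniz_inv, ha, smul_zero]
  | mul a b _ _ ha hb => rw [Derivation.leibniz, ha, hb, smul_zero, smul_zero, add_zero]

/-- the derivation commutes with the automorphisms -/
theorem der_comm {x : ℂ} (halg : Algebra.IsAlgebraic (IntermediateField.adjoin K₁ {x}) ℂ)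
    (D : Derivation K₁ ℂ ℂ) {e : IntermediateField.adjoin K₁ {x}} (h : D x = e)
    (τ : ℂ ≃ₐ[IntermediateField.adjoin K₁ {x}] ℂ) (w : ℂ) : D (τ w) = τ (D w) := by
  let D' : Derivation K₁ ℂ ℂ := Derivation.mk'
    { toFun := fun w => τ.symm (D (τ w))
      map_add' := fun a b => by simp
      map_smul' := fun k w => by
        have h1 : ∀ w : ℂ, τ (k • w) = k • τ w := fun w => by
          rw [Algebra.smul_def, Algebra.smul_def, map_mul]
          congr 1
          exact τ.commutes (algebraMap K₁ _ k)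
        have h2 : ∀ w : ℂ, τ.symm (k • w) = k • τ.symm w := fun w => by
          rw [Algebra.smul_def, Algebra.smul_def, map_mul]
          congr 1
          exact τ.symm.commutes (algebraMap K₁ _ k)
        rw [h1, D.map_smul, h2, RingHom.id_apply] }
    (fun a b => by
      change τ.symm (D (τ (a * b))) = a • τ.symm (D (τ b)) + b • τ.symm (D (τ a))
      rw [map_mul, D.leibniz, map_add, smul_eq_mul, smul_eq_mul, map_mul, map_mul,
        AlgEquiv.symm_apply_apply, AlgEquiv.symm_apply_apply, smul_eq_mul, smul_eq_mul])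
  have h0 : ∀ w, D' w = τ.symm (D (τ w)) := fun _ => rfl
  have hx : (D' - D) x = 0 := by
    rw [Derivation.sub_apply, h0]
    have e1 : τ x = x := τ.commutes ⟨x, IntermediateField.mem_adjoin_simple_self K₁ x⟩
    rw [e1, h]
    have e2 : τ.symm (e : ℂ) = e := τ.symm.commutes e
    rw [e2, sub_self]
  have h1 := der_unique halg (D' - D) hx w
  rw [Derivation.sub_apply, h0, sub_eq_zero] at h1
  rw [← h1, AlgEquiv.apply_symm_apply]

omit [CharZero K₁] in
theorem der_aeval (D : Derivation K₁ ℂ ℂ) {x : ℂ} (hx : D x = 1) (P : K₁[X]) :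
    D (aeval x P) = aeval x (derivative P) := by
  rw [D.map_aeval, hx, smul_eq_mul, mul_one]

omit [CharZero K₁] in
/-- relations between logarithmic derivatives of rational functions, in terms of polynomials -/
theorem rat_rel (D : Derivation K₁ ℂ ℂ) {x : ℂ} (hx : D x = 1) {n : ℕ} (N : Fin n → ℂ)
    (hN : ∀ j, N j ∈ IntermediateField.adjoin K₁ {x}) (hN0 : ∀ j, N j ≠ 0) :
    ∃ P Q : Fin n → K₁[X], (∀ j, P j ≠ 0) ∧ (∀ j, Q j ≠ 0) ∧ (∀ j, aeval x (P j) ≠ 0) ∧
      (∀ j, aeval x (Q j) ≠ 0) ∧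
      ∀ j, D (N j) / N j = aeval x (derivative (P j)) / aeval x (P j) -
        aeval x (derivative (Q j)) / aeval x (Q j) := by
  have h1 : ∀ j, ∃ P Q : K₁[X], N j = aeval x P / aeval x Q := fun j =>
    (IntermediateField.mem_adjoin_simple_iff K₁ (N j)).1 (hN j)
  choose P Q hPQ using h1
  have hP : ∀ j, aeval x (P j) ≠ 0 := fun j h => hN0 j (by rw [hPQ, h, zero_div])
  have hQ : ∀ j, aeval x (Q j) ≠ 0 := fun j h => hN0 j (by rw [hPQ, h, div_zero])
  refine ⟨P, Q, fun j h => hP j (by rw [h, map_zero]), fun j h => hQ j (by rw [h, map_zero]),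
    hP, hQ, fun j => ?_⟩
  have e1 : D (aeval x (P j) / aeval x (Q j)) =
      (aeval x (derivative (P j)) * aeval x (Q j) - aeval x (P j) * aeval x (derivative (Q j))) /
        aeval x (Q j) ^ 2 := by
    rw [div_eq_mul_inv, Derivation.leibniz, Derivation.leibniz_inv, der_aeval D hx,
      der_aeval D hx]
    have := hQ j
    simp only [smul_eq_mul]
    field_simp
    ring
  rw [hPQ, e1]
  have := hP j
  have := hQ j
  field_simp

/-- sums over the conjugates -/
theorem conj_sum {x : ℂ} (halg : Algebra.IsAlgebraic (IntermediateField.adjoin K₁ {x}) ℂ)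
    (D : Derivation K₁ ℂ ℂ) {e : IntermediateField.adjoin K₁ {x}} (h : D x = e)
    {n : ℕ} (u : Fin n → ℂ) (hu : ∀ j, u j ≠ 0) :
    ∃ (d : ℕ) (N : Fin n → ℂ), 0 < d ∧ (∀ j, N j ∈ IntermediateField.adjoin K₁ {x}) ∧
      (∀ j, N j ≠ 0) ∧ ∀ (β : Fin n → K₁) (g : IntermediateField.adjoin K₁ {x}),
        ∑ j, algebraMap K₁ ℂ (β j) * (D (u j) / u j) = g →
        ∑ j, algebraMap K₁ ℂ (β j) * (D (N j) / N j) = (d : ℂ) * g := by
  have : CharZero (IntermediateField.adjoin K₁ {x}) :=
    charZero_of_injective_algebraMap (algebraMap K₁ _).injective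
  obtain ⟨ι, hι, hne, τ, hτ⟩ := norms (E := IntermediateField.adjoin K₁ {x}) u
  refine ⟨Fintype.card ι, fun j => ∏ i, τ i (u j), Fintype.card_pos, fun j => ?_, fun j => ?_,
    fun β g hg => ?_⟩
  · obtain ⟨e, he⟩ := hτ j
    have : (e : ℂ) ∈ IntermediateField.adjoin K₁ {x} := e.2
    change ∏ i, τ i (u j) ∈ _
    rw [he]; exact this
  · exact prod_ne_zero_iff.2 (fun i _ => (map_ne_zero (τ i)).2 (hu j))
  · have h1 : ∀ j, D (∏ i, τ i (u j)) / ∏ i, τ i (u j) = ∑ i, τ i (D (u j) / u j) := by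
      intro j
      have h2 := Pool.Agent.H327R2.SC.logder D univ (fun i => τ i (u j))
        (fun i _ => (map_ne_zero (τ i)).2 (hu j)) (fun _ => 1)
      simp only [zpow_one, Int.cast_one, one_mul] at h2
      rw [h2, mul_div_cancel_left₀ _ (prod_ne_zero_iff.2
        (fun i _ => (map_ne_zero (τ i)).2 (hu j)))]
      refine sum_congr rfl (fun i _ => ?_)
      rw [der_comm halg D h, map_div₀]
    have h3 : ∀ i, ∑ j, algebraMap K₁ ℂ (β j) * τ i (D (u j) / u j) = g := by
      intro i
      have e2 : τ i (g : ℂ) = g := (τ i).commutes g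
      rw [← e2, ← hg, map_sum]
      refine sum_congr rfl (fun j _ => ?_)
      rw [map_mul]
      congr 1
      exact ((τ i).commutes (algebraMap K₁ _ (β j))).symm
    calc ∑ j, algebraMap K₁ ℂ (β j) * (D (∏ i, τ i (u j)) / ∏ i, τ i (u j))
        = ∑ j, ∑ i, algebraMap K₁ ℂ (β j) * τ i (D (u j) / u j) := by
          refine sum_congr rfl (fun j _ => ?_)
          rw [h1, mul_sum]
      _ = ∑ i, ∑ j, algebraMap K₁ ℂ (β j) * τ i (D (u j) / u j) := sum_comm
      _ = ∑ _i : ι, (g : ℂ) := sum_congr rfl (fun i _ => h3 i)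
      _ = _ := by rw [sum_const, nsmul_eq_mul, card_univ]

omit [CharZero K₁] in
/-- from an identity in `ℂ` to an identity of polynomials -/
theorem poly_of_eq {x : ℂ} (hx : Transcendental K₁ x) {ι : Type*} [Fintype ι] [DecidableEq ι]
    (R : ι → K₁[X]) (hR : ∀ i, aeval x (R i) ≠ 0) (γ : ι → K₁) (c : K₁)
    (h : ∑ i, algebraMap K₁ ℂ (γ i) * (aeval x (derivative (R i)) / aeval x (R i)) =
      algebraMap K₁ ℂ c) :
    ∑ i, C (γ i) * (derivative (R i) * ∏ l ∈ univ.erase i, R l) = C c * ∏ l, R l := by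
  rw [← sub_eq_zero]
  by_contra hne
  apply hx
  refine ⟨_, hne, ?_⟩
  rw [map_sub, map_mul, aeval_C, ← h, map_sum, sum_mul, sub_eq_zero]
  refine sum_congr rfl (fun i _ => ?_)
  rw [map_mul, map_mul, aeval_C, map_prod, map_prod,
    ← mul_prod_erase univ (fun l => aeval x (R l)) (mem_univ i)]
  have := hR i
  field_simp

theorem inf_rel {x : ℂ} (hx : Transcendental K₁ x)
    (halg : Algebra.IsAlgebraic (IntermediateField.adjoin K₁ {x}) ℂ)
    (D : Derivation K₁ ℂ ℂ) (h : D x = 1) {n : ℕ} (u : Fin n → ℂ) (hu : ∀ j, u j ≠ 0)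
    (β : Fin n → K₁) (hβ : ∑ j, algebraMap K₁ ℂ (β j) * (D (u j) / u j) = 1) : False := by
  classical
  obtain ⟨d, N, hd, hN, hN0, hrel⟩ := conj_sum halg D (e := 1) (by rw [h]; rfl) u hu
  have h1 := hrel β 1 (by rw [hβ]; rfl)
  obtain ⟨P, Q, hP, hQ, hP', hQ', hPQ⟩ := rat_rel D h N hN hN0
  have h2 := poly_of_eq hx (ι := Fin n ⊕ Fin n) (Sum.elim P Q) (by
    rintro (j | j)
    · exact hP' j
    · exact hQ' j) (Sum.elim β (fun j => -β j)) (d : K₁) (by
    rw [Fintype.sum_sum_type, map_natCast]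
    simp only [Sum.elim_inl, Sum.elim_inr, map_neg, neg_mul, sum_neg_distrib]
    have h3 : ((1 : IntermediateField.adjoin K₁ {x}) : ℂ) = 1 := rfl
    rw [h3, mul_one] at h1
    rw [← h1, ← sub_eq_add_neg, ← sum_sub_distrib]
    refine sum_congr rfl (fun j _ => ?_)
    rw [hPQ, mul_sub])
  have h4 := polyInf (Sum.elim P Q) (by
    rintro (j | j)
    · exact hP j
    · exact hQ j) _ _ h2
  have : (d : K₁) ≠ 0 := by exact_mod_cast hd.ne'
  exact this h4

theorem zero_rel {y : ℂ} (hy : Transcendental K₁ y)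
    (halg : Algebra.IsAlgebraic (IntermediateField.adjoin K₁ {y}) ℂ)
    (D : Derivation K₁ ℂ ℂ) (h : D y = 1) {n : ℕ} (u : Fin n → ℂ) (hu : ∀ j, u j ≠ 0) :
    ∃ (d : ℕ) (e : Fin n → ℤ), 0 < d ∧
      (∀ β : Fin n → K₁, ∑ j, algebraMap K₁ ℂ (β j) * (D (u j) / u j) = 0 →
        ∑ j, β j * (e j : K₁) = 0) ∧
      ∀ a : Fin n → ℤ, ∑ j, (a j : ℂ) * (D (u j) / u j) = 1 / y → ∑ j, a j * e j = d := by
  classical
  have hy0 : y ≠ 0 := by
    rintro rfl
    exact hy isAlgebraic_zero
  obtain ⟨d, N, hd, hN, hN0, hrel⟩ := conj_sum halg D (e := 1) (by rw [h]; rfl) u hu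
  obtain ⟨P, Q, hP, hQ, hP', hQ', hPQ⟩ := rat_rel D h N hN hN0
  refine ⟨d, fun j => ((P j).rootMultiplicity 0 : ℤ) - ((Q j).rootMultiplicity 0 : ℤ), hd,
    fun β hβ => ?_, fun a ha => ?_⟩
  · have h1 := hrel β 0 (by rw [hβ]; rfl)
    have h2 := poly_of_eq hy (ι := Fin n ⊕ Fin n) (Sum.elim P Q) (by
      rintro (j | j)
      · exact hP' j
      · exact hQ' j) (Sum.elim β (fun j => -β j)) 0 (by
      rw [Fintype.sum_sum_type, map_zero]
      simp only [Sum.elim_inl, Sum.elim_inr, map_neg, neg_mul, sum_neg_distrib]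
      have h3 : ((0 : IntermediateField.adjoin K₁ {y}) : ℂ) = 0 := rfl
      rw [h3, mul_zero] at h1
      rw [← h1, ← sub_eq_add_neg, ← sum_sub_distrib]
      refine sum_congr rfl (fun j _ => ?_)
      rw [hPQ, mul_sub])
    rw [C_0, zero_mul] at h2
    have h4 := polyZero (Sum.elim P Q) (by
      rintro (j | j)
      · exact hP j
      · exact hQ j) _ h2
    rw [Fintype.sum_sum_type] at h4
    simp only [Sum.elim_inl, Sum.elim_inr, neg_mul, sum_neg_distrib] at h4
    rw [← sub_eq_add_neg, ← sum_sub_distrib] at h4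
    refine Eq.trans (sum_congr rfl (fun j _ => ?_)) h4
    push_cast
    ring
  · have hinv : (1 / y : ℂ) = (((⟨y, IntermediateField.mem_adjoin_simple_self K₁ y⟩ :
        IntermediateField.adjoin K₁ {y})⁻¹ : IntermediateField.adjoin K₁ {y}) : ℂ) := by
      rw [one_div]; rfl
    have h1 := hrel (fun j => (a j : K₁)) (⟨y, IntermediateField.mem_adjoin_simple_self K₁ y⟩ :
        IntermediateField.adjoin K₁ {y})⁻¹ (by
      rw [← hinv, ← ha]
      refine sum_congr rfl (fun j _ => ?_)
      rw [map_intCast])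
    rw [← hinv] at h1
    have h2 := poly_of_eq hy (ι := Option (Fin n ⊕ Fin n))
      (fun o => o.elim X (Sum.elim P Q)) (by
      rintro (_ | (j | j))
      · simpa using hy0
      · exact hP' j
      · exact hQ' j)
      (fun o => o.elim (-(d : K₁)) (Sum.elim (fun j => (a j : K₁)) (fun j => -(a j : K₁)))) 0 (by
      rw [Fintype.sum_option, Fintype.sum_sum_type, map_zero]
      simp only [Option.elim, Sum.elim_inl, Sum.elim_inr, map_neg, neg_mul, sum_neg_distrib,
        derivative_X, map_one, aeval_X, map_natCast]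
      rw [← h1, ← sub_eq_add_neg (∑ j, _), ← sum_sub_distrib, neg_add_eq_zero]
      refine sum_congr rfl (fun j _ => ?_)
      rw [hPQ, mul_sub])
    rw [C_0, zero_mul] at h2
    have h4 := polyZero (fun o : Option (Fin n ⊕ Fin n) => o.elim X (Sum.elim P Q)) (by
      rintro (_ | (j | j))
      · exact X_ne_zero
      · exact hP j
      · exact hQ j) _ h2
    rw [Fintype.sum_option, Fintype.sum_sum_type] at h4
    simp only [Option.elim, Sum.elim_inl, Sum.elim_inr, neg_mul, sum_neg_distrib] at h4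
    have hX : (X : K₁[X]).rootMultiplicity 0 = 1 := by
      have := rootMultiplicity_X_sub_C_self (x := (0 : K₁))
      rwa [C_0, sub_zero] at this
    rw [hX] at h4
    have h5 : ((∑ j, a j * (((P j).rootMultiplicity 0 : ℤ) -
        ((Q j).rootMultiplicity 0 : ℤ)) : ℤ) : K₁) = ((d : ℤ) : K₁) := by
      push_cast
      simp only [mul_sub, sum_sub_distrib]
      linear_combination h4
    exact_mod_cast h5

end one

/-- a large subfield over which `y` is transcendental -/
theorem exists_field (K : IntermediateField ℚ ℂ) {y : ℂ} (hy : Transcendental K y) :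
    ∃ K₁ : IntermediateField K ℂ, Transcendental K₁ y ∧
      Algebra.IsAlgebraic (IntermediateField.adjoin K₁ {y}) ℂ := by
  classical
  have : CharZero K := charZero_of_injective_algebraMap (algebraMap ℚ K).injective
  have h1 : AlgebraicIndepOn K id ({y} : Set ℂ) := by
    have : AlgebraicIndependent K (fun _ : Unit => y) :=
      (algebraicIndependent_unique_type_iff).2 hy
    have h2 := this.coe_range
    rwa [Set.range_const] at h2
  obtain ⟨t, ht1, ht2⟩ := exists_isTranscendenceBasis_superset h1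
  have hyt : y ∈ t := ht1 rfl
  refine ⟨IntermediateField.adjoin K (t \ {y}), ?_, ⟨fun w => ?_⟩⟩
  · have h3 := ht2.1.transcendental_adjoin (s := {z : t | (z : ℂ) ≠ y}) (i := ⟨y, hyt⟩)
      (by simp)
    have h4 : (fun z : t => (z : ℂ)) '' {z : t | (z : ℂ) ≠ y} = t \ {y} := by
      ext z
      simp only [Set.mem_image, Set.mem_ofPred_eq, Set.mem_sdiff, Set.mem_singleton_iff]
      constructor
      · rintro ⟨z', h5, rfl⟩
        exact ⟨z'.2, h5⟩
      · rintro ⟨h5, h6⟩
        exact ⟨⟨z, h5⟩, h6, rfl⟩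
    rw [h4] at h3
    intro h5
    exact h3 (IntermediateField.isAlgebraic_adjoin_iff.1 h5)
  · have h5 := ht2.isAlgebraic_field
    rw [Subtype.range_coe] at h5
    obtain ⟨p, hp, hpw⟩ := h5.isAlgebraic w
    have hle : ∀ z ∈ IntermediateField.adjoin K t,
        z ∈ IntermediateField.adjoin (IntermediateField.adjoin K (t \ {y})) {y} := by
      intro z hz
      induction hz using IntermediateField.adjoin_induction with
      | mem z hz =>
        by_cases hzy : z = y
        · rw [hzy]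
          exact IntermediateField.mem_adjoin_simple_self _ y
        · exact IntermediateField.algebraMap_mem _
            (⟨z, IntermediateField.subset_adjoin _ _ ⟨hz, hzy⟩⟩ :
              IntermediateField.adjoin K (t \ {y}))
      | algebraMap a =>
        exact IntermediateField.algebraMap_mem _
          (algebraMap K (IntermediateField.adjoin K (t \ {y})) a)
      | add a b _ _ ha hb => exact add_mem ha hb
      | inv a _ ha => exact inv_mem ha
      | mul a b _ _ ha hb => exact mul_mem ha hb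
    let φ : IntermediateField.adjoin K t →+*
        IntermediateField.adjoin (IntermediateField.adjoin K (t \ {y})) {y} :=
      { toFun := fun z => ⟨z, hle z z.2⟩
        map_one' := rfl
        map_mul' := fun a b => rfl
        map_zero' := rfl
        map_add' := fun a b => rfl }
    refine ⟨p.map φ, (Polynomial.map_ne_zero_iff φ.injective).2 hp, ?_⟩
    rw [aeval_def, eval₂_map]
    exact hpw

/-- an element which is not killed is transcendental -/
theorem trans_of_der (K : IntermediateField ℚ ℂ) {x : ℂ} (D : Derivation ℚ ℂ ℂ)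
    (hD : ∀ w ∈ K, D w = 0) (hx : D x ≠ 0) : Transcendental K x := fun h =>
  hx (Pool.Agent.H327R2.SC.der_alg K D hD h)

/-- a derivation over a large field -/
theorem exists_setup (K : IntermediateField ℚ ℂ) {y : ℂ} (hy : Transcendental K y) :
    ∃ (K₁ : IntermediateField K ℂ) (D : Derivation K₁ ℂ ℂ), Transcendental K₁ y ∧
      Algebra.IsAlgebraic (IntermediateField.adjoin K₁ {y}) ℂ ∧ D y = 1 := by
  obtain ⟨K₁, h1, h2⟩ := exists_field K hy
  have : CharZero K := charZero_of_injective_algebraMap (algebraMap ℚ K).injective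
  have : CharZero K₁ := charZero_of_injective_algebraMap (algebraMap K K₁).injective
  have hind : AlgebraicIndependent K₁ (fun _ : Unit => y) :=
    (algebraicIndependent_unique_type_iff).2 h1
  obtain ⟨D, hD⟩ := Pool.Agent.H135R2.VS.exists_der hind (fun _ => (1 : ℂ))
  exact ⟨K₁, D, h1, h2, hD ()⟩

/-- **A sum of multiples of logarithmic differentials is not exact.** -/
theorem exact (K : IntermediateField ℚ ℂ) {n : ℕ} (β u : Fin n → ℂ) (hβ : ∀ j, β j ∈ K)
    (hu : ∀ j, u j ≠ 0) (x : ℂ)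
    (h : ∀ D : Derivation ℚ ℂ ℂ, (∀ w ∈ K, D w = 0) → D x = ∑ j, β j * (D (u j) / u j)) :
    ∀ D : Derivation ℚ ℂ ℂ, (∀ w ∈ K, D w = 0) → D x = 0 := by
  intro D₀ hD₀
  by_contra hne
  obtain ⟨K₁, D, h1, h2, h3⟩ := exists_setup K (trans_of_der K D₀ hD₀ hne)
  have : CharZero K := charZero_of_injective_algebraMap (algebraMap ℚ K).injective
  have : CharZero K₁ := charZero_of_injective_algebraMap (algebraMap K K₁).injective
  refine inf_rel h1 h2 D h3 u hu (fun j => algebraMap K K₁ ⟨β j, hβ j⟩) ?_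
  have h4 := h ((D.restrictScalars K).restrictScalars ℚ)
    (fun w hw => (D.restrictScalars K).map_algebraMap (⟨w, hw⟩ : K))
  have h5 : ((D.restrictScalars K).restrictScalars ℚ) x = D x := rfl
  rw [h5, h3] at h4
  exact h4.symm

/-- **Relations between logarithmic differentials are rational.** -/
theorem rational (K : IntermediateField ℚ ℂ) {n : ℕ} (β u : Fin n → ℂ) (hβ : ∀ j, β j ∈ K)
    (hu : ∀ j, u j ≠ 0)
    (h : ∀ D : Derivation ℚ ℂ ℂ, (∀ w ∈ K, D w = 0) → ∑ j, β j * (D (u j) / u j) = 0)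
    (ψ : ℂ →ₗ[ℚ] ℚ) :
    ∀ D : Derivation ℚ ℂ ℂ, (∀ w ∈ K, D w = 0) → ∑ j, (ψ (β j) : ℂ) * (D (u j) / u j) = 0 := by
  intro D₀ hD₀
  by_contra hne
  -- a common denominator
  obtain ⟨m, hm, a, ha⟩ : ∃ (m : ℕ) (_ : 0 < m) (a : Fin n → ℤ), ∀ j, (a j : ℚ) = m * ψ (β j) := by
    refine ⟨∏ j, (ψ (β j)).den, Finset.prod_pos (fun j _ => (ψ (β j)).den_pos),
      fun j => (ψ (β j)).num * ∏ l ∈ univ.erase j, ((ψ (β l)).den : ℤ), fun j => ?_⟩
    rw [← mul_prod_erase univ (fun l => (ψ (β l)).den) (mem_univ j)]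
    push_cast
    have h1 : ((ψ (β j)).den : ℚ) * ψ (β j) = (ψ (β j)).num := Rat.den_mul_eq_num _
    rw [← h1]
    ring
  set y := ∏ j, u j ^ a j with hy
  have hy0 : y ≠ 0 := prod_ne_zero_iff.2 (fun j _ => zpow_ne_zero _ (hu j))
  have hlog : ∀ D : Derivation ℚ ℂ ℂ, D y = y * ∑ j, (a j : ℂ) * (D (u j) / u j) := fun D =>
    Pool.Agent.H327R2.SC.logder D univ u (fun j _ => hu j) a
  have haC : ∀ j, (a j : ℂ) = m * (ψ (β j) : ℂ) := fun j => by
    have := ha j
    exact_mod_cast congrArg (fun q : ℚ => (q : ℂ)) this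
  have hDy : D₀ y ≠ 0 := by
    rw [hlog]
    refine mul_ne_zero hy0 ?_
    have : ∑ j, (a j : ℂ) * (D₀ (u j) / u j) = m * ∑ j, (ψ (β j) : ℂ) * (D₀ (u j) / u j) := by
      rw [mul_sum]
      refine sum_congr rfl (fun j _ => ?_)
      rw [haC, mul_assoc]
    rw [this]
    exact mul_ne_zero (by exact_mod_cast hm.ne') hne
  obtain ⟨K₁, D, h1, h2, h3⟩ := exists_setup K (trans_of_der K D₀ hD₀ hDy)
  have : CharZero K := charZero_of_injective_algebraMap (algebraMap ℚ K).injective
  have : CharZero K₁ := charZero_of_injective_algebraMap (algebraMap K K₁).injective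
  obtain ⟨d, e, hd, he1, he2⟩ := zero_rel h1 h2 D h3 u hu
  have h4 := he1 (fun j => algebraMap K K₁ ⟨β j, hβ j⟩)
    (h ((D.restrictScalars K).restrictScalars ℚ)
      (fun w hw => (D.restrictScalars K).map_algebraMap (⟨w, hw⟩ : K)))
  have h5 : ∑ j, β j * (e j : ℂ) = 0 := by
    have := congrArg (algebraMap K₁ ℂ) h4
    rw [map_sum, map_zero] at this
    rw [← this]
    refine sum_congr rfl (fun j _ => ?_)
    rw [map_mul, map_intCast]
    rfl
  have h6 : ∑ j, ψ (β j) * (e j : ℚ) = 0 := by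
    have := congrArg ψ h5
    rw [map_sum, map_zero] at this
    rw [← this]
    refine sum_congr rfl (fun j _ => ?_)
    have e1 : β j * (e j : ℂ) = (e j : ℚ) • β j := by
      rw [Rat.smul_def]; push_cast; ring
    rw [e1, map_smul, smul_eq_mul, mul_comm]
  have h7 := he2 a (by
    have h8 := hlog ((D.restrictScalars K).restrictScalars ℚ)
    have h9 : ((D.restrictScalars K).restrictScalars ℚ) y = D y := rfl
    rw [h9, h3] at h8
    have h10 : ∑ j, (a j : ℂ) * (D (u j) / u j) = 1 / y := by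
      rw [eq_div_iff hy0, mul_comm]
      exact h8.symm
    exact h10)
  have h8 : ((∑ j, a j * e j : ℤ) : ℚ) = 0 := by
    push_cast
    have : ∑ j, (a j : ℚ) * (e j : ℚ) = m * ∑ j, ψ (β j) * (e j : ℚ) := by
      rw [mul_sum]
      refine sum_congr rfl (fun j _ => ?_)
      rw [ha, mul_assoc]
    rw [this, h6, mul_zero]
  rw [h7] at h8
  have : (d : ℤ) = 0 := by exact_mod_cast h8
  omega

end Pool.Agent.TH813.Ros
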