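import Mathlib
import Pool.Agent.H73.G.R8.TH813.Ros

/-!
# The transcendence degree as a rank of derivations
-/

set_option autoImplicit false

namespace Pool.Agent.TH813.Rank

open   Pool.Agent.H327R2.SC Module Finset

/-- linear maps with the same kernel have ranges of the same dimension -/
theorem finrank_range_eq {k A B C : Type*} [Field k] [AddCommGroup A] [Module k A]
    [AddCommGroup B] [Module k B] [AddCommGroup C] [Module k C] (f : A →ₗ[k] B) (g : A →ₗ[k] C)
    (h : LinearMap.ker f = LinearMap.ker g) :
    finrank k (LinearMap.range f) = finrank k (LinearMap.range g) := by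
  rw [← f.quotKerEquivRange.finrank_eq, ← g.quotKerEquivRange.finrank_eq]
  exact (Submodule.quotEquivOfEq _ _ h).finrank_eq

variable {n : ℕ}

end Pool.Agent.TH813.Rank
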