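import Mathlib
import Pool.Agent.H73.G.R8.TH813.Rank

/-!
# Tangent vectors over a field of constants
-/

set_option autoImplicit false

namespace Pool.Agent.TH813.Rel

open   Finset Module
open  Pool.Agent.TH813.Rank 

variable {n : ℕ} (F : IntermediateField ℚ ℂ)

/-- the derivations of `ℂ` over `F` -/
def DF : Submodule ℂ (Derivation ℚ ℂ ℂ) where
  carrier := {D | ∀ x ∈ F, D x = 0}
  add_mem' := by
    intro D D' h h' x hx
    rw [Derivation.add_apply, h x hx, h' x hx, add_zero]
  zero_mem' := fun x _ => rfl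
  smul_mem' := by
    intro c D h x hx
    rw [Derivation.smul_apply, h x hx, smul_zero]

theorem mem_DF {D : Derivation ℚ ℂ ℂ} : D ∈ DF F ↔ ∀ x ∈ F, D x = 0 := Iff.rfl

theorem bracket_mem {D D' : Derivation ℚ ℂ ℂ} (h : D ∈ DF F) (h' : D' ∈ DF F) :
    ⁅D, D'⁆ ∈ DF F := by
  intro x hx
  rw [Derivation.commutator_apply, h' x hx, h x hx, map_zero, map_zero, sub_zero]

variable {F}

end Pool.Agent.TH813.Rel
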