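import Mathlib
import Pool.Agent.H73.G.R8.TH813.EllRos2
import Pool.Agent.H73.G.R8.TH813.Rel1

/-!
# Tangent vectors for exponentials and elliptic functions
-/

set_option autoImplicit false

open Finset Module
open scoped PeriodPair

noncomputable section

namespace Pool.Agent.TH813.Ell

open H667R3 Pool.Agent.W245.EB
open  Pool.Agent.TH813.Rank 
open Pool.Agent.TH813.Rel (DF mem_DF bracket_mem)

variable (L : PeriodPair) {s n : ℕ}

variable {L}

theorem om_add_der (D D' : Derivation ℚ ℂ ℂ) (z : ℂ) :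
    om L (D + D') z = om L D z + om L D' z := by
  unfold om
  rw [Derivation.add_apply, add_div]

theorem om_smul_der (c : ℂ) (D : Derivation ℚ ℂ ℂ) (z : ℂ) :
    om L (c • D) z = c * om L D z := by
  unfold om
  rw [Derivation.smul_apply, smul_eq_mul, mul_div_assoc]

theorem et_add_der (D D' : Derivation ℚ ℂ ℂ) (z : ℂ) :
    et L (D + D') z = et L D z + et L D' z := by
  unfold et
  rw [Derivation.add_apply, om_add_der]
  ring

theorem et_smul_der (c : ℂ) (D : Derivation ℚ ℂ ℂ) (z : ℂ) :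
    et L (c • D) z = c * et L D z := by
  unfold et
  rw [Derivation.smul_apply, om_smul_der, smul_eq_mul]
  ring

theorem wp_killed {D : Derivation ℚ ℂ ℂ} (h2 : D L.g₂ = 0) (h3 : D L.g₃ = 0) {z : ℂ}
    (h : om L D z = 0) (hz : z ∉ L.lattice) : D (℘[L] z) = 0 ∧ D (℘'[L] z) = 0 :=
  (om_eq_zero_iff L D h2 h3 hz).1 h

theorem om_bracket {D D' : Derivation ℚ ℂ ℂ} (h2 : D L.g₂ = 0) (h3 : D L.g₃ = 0) {z : ℂ}
    (h : om L D z = 0) : om L ⁅D, D'⁆ z = D (om L D' z) := by
  by_cases hz : z ∈ L.lattice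
  · rw [om_of_mem L _ hz, om_of_mem L _ hz, map_zero]
  · obtain ⟨h4, h5⟩ := wp_killed h2 h3 h hz
    unfold om
    rw [Derivation.commutator_apply, h4, map_zero, sub_zero, div_eq_mul_inv, div_eq_mul_inv,
      Derivation.leibniz, Derivation.leibniz_inv, h5, smul_zero, smul_zero, zero_add,
      smul_eq_mul, mul_comm]

variable {F : IntermediateField ℚ ℂ}

/-! ## The parts of a coordinate -/

end Pool.Agent.TH813.Ell
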