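import Mathlib
import Pool.Agent.H73.G.R8.TH813.Rel1

/-!
# The relative transcendence degree as a rank of derivations
-/

set_option autoImplicit false

namespace Pool.Agent.TH813.Rel

open   Pool.Agent.H327R2.SC Finset Module
open  Pool.Agent.TH813.Rank 

section mat

variable {k : Type} [Field k] [Algebra k ℂ]

/-- The matroid of algebraic independence over `k`. -/
noncomputable abbrev MK (k : Type) [Field k] [Algebra k ℂ] : Matroid ℂ :=
  AlgebraicIndependent.matroid k ℂ

theorem mem_cl {S : Set ℂ} {x : ℂ} :
    x ∈ (MK k).closure S ↔ IsAlgebraic (Algebra.adjoin k S) x := by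
  rw [AlgebraicIndependent.matroid_closure_eq]
  rfl

theorem subset_cl (S : Set ℂ) : S ⊆ (MK k).closure S :=
  (MK k).subset_closure S (Set.subset_univ _)

theorem rk_le_of_subset_cl {S T : Set ℂ} (h : S ⊆ (MK k).closure T) :
    (MK k).eRk S ≤ (MK k).eRk T := by
  have := (MK k).eRk_mono h
  rwa [(MK k).eRk_closure_eq] at this

end mat

variable {n : ℕ} (F : IntermediateField ℚ ℂ)

/-- A derivation over `F` kills the closure of a set which it kills. -/
theorem kills_clF {S : Set ℂ} {D : Derivation ℚ ℂ ℂ} (hF : D ∈ DF F) (h : ∀ s ∈ S, D s = 0)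
    {u : ℂ} (hu : u ∈ (MK F).closure S) : D u = 0 := by
  let D' : Derivation F ℂ ℂ := Derivation.mk' (R := F)
    { toFun := fun x => D x
      map_add' := fun a b => map_add D a b
      map_smul' := fun k x => by
        change D ((k : ℂ) * x) = (k : ℂ) * D x
        rw [Derivation.leibniz, hF k k.2]
        simp } (fun a b => D.leibniz a b)
  have hE : ∀ x ∈ IntermediateField.adjoin F S, D' x = 0 := kills_adjoin D' h
  have h2 : IsAlgebraic (IntermediateField.adjoin F S) u := by
    rw [IntermediateField.isAlgebraic_adjoin_iff]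
    exact mem_cl.1 hu
  exact Pool.Agent.H327R2.SC.der_alg (IntermediateField.adjoin F S) D' hE h2

/-- derivations over `F` with prescribed values -/
theorem exists_derF {κ : Type} {x : κ → ℂ} (hx : AlgebraicIndependent F x) (v : κ → ℂ) :
    ∃ D ∈ DF F, ∀ i, D (x i) = v i := by
  obtain ⟨D, hD⟩ := Pool.Agent.H135R2.VS.exists_der hx v
  exact ⟨D.restrictScalars ℚ, fun y hy => D.map_algebraMap (⟨y, hy⟩ : F), hD⟩

end Pool.Agent.TH813.Rel
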