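import Mathlib
import Pool.Agent.H73.G.R8.TH813.EllCore
import Pool.Agent.H73.G.R8.TH813.Rel2

/-!
# The transcendence degree as a rank, for exponentials and elliptic functions
-/

set_option autoImplicit false

open Finset Module
open scoped PeriodPair

noncomputable section

namespace Pool.Agent.TH813.Ell

open H667R3 Pool.Agent.W245.EB
open  Pool.Agent.TH813.Rank
open Pool.Agent.TH813.Rel (DF MK mem_cl subset_cl kills_clF exists_derF rk_le_of_subset_cl)

variable {L : PeriodPair} {s n : ℕ} {F : IntermediateField ℚ ℂ}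

/-- the algebraic closure is the common kernel of the derivations -/
theorem mem_cl_iff (S : Set ℂ) (x : ℂ) :
    x ∈ (MK F).closure S ↔ ∀ D ∈ DF F, (∀ y ∈ S, D y = 0) → D x = 0 := by
  classical
  constructor
  · intro hx D hF hD
    exact kills_clF F hF hD hx
  · intro h
    by_contra hcon
    obtain ⟨I, hI⟩ := (MK F).exists_isBasis S (Set.subset_univ _)
    rw [← hI.closure_eq_closure] at hcon
    obtain ⟨h1, h2⟩ := (hI.indep.notMem_closure_iff (Set.mem_univ _)).1 hcon
    have hind : AlgebraicIndependent F (fun i : ↥(insert x I) => (i : ℂ)) := h1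
    obtain ⟨D, hF, hD⟩ := exists_derF F hind (fun i => if (i : ℂ) = x then 1 else 0)
    have h0 : ∀ i ∈ I, D i = 0 := by
      intro i hi
      rw [hD ⟨i, Or.inr hi⟩, if_neg]
      intro h
      have h' : i = x := h
      exact h2 (h' ▸ hi)
    have h4 := h D hF (fun w hw =>
      kills_clF F hF h0 (by rw [hI.closure_eq_closure]; exact subset_cl _ hw))
    rw [hD ⟨x, Or.inl rfl⟩, if_pos rfl] at h4
    exact one_ne_zero h4

/-- the rank of a map whose kernel consists of the derivations which kill `S` -/
theorem rank_of_ker (S : Set ℂ) (hS : S.Finite) {ι : Type*} (f : DF F →ₗ[ℂ] (ι → ℂ))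
    (h : ∀ D : DF F, f D = 0 ↔ ∀ x ∈ S, (D : Derivation ℚ ℂ ℂ) x = 0) :
    ((finrank ℂ (LinearMap.range f) : ℕ) : ℕ∞) = (MK F).eRk S := by
  classical
  obtain ⟨I, hI⟩ := (MK F).exists_isBasis S (Set.subset_univ _)
  have hIfin : I.Finite := hS.subset hI.subset
  have : Fintype I := hIfin.fintype
  let ρ : DF F →ₗ[ℂ] (I → ℂ) :=
    { toFun := fun D i => (D : Derivation ℚ ℂ ℂ) i
      map_add' := fun D D' => rfl
      map_smul' := fun c D => rfl }
  have hind : AlgebraicIndependent F (fun i : I => (i : ℂ)) := hI.indep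
  have hsurj : Function.Surjective ρ := by
    intro v
    obtain ⟨D, hF, hD⟩ := exists_derF F hind v
    exact ⟨⟨D, hF⟩, funext hD⟩
  have hker : LinearMap.ker f = LinearMap.ker ρ := by
    ext D
    rw [LinearMap.mem_ker, LinearMap.mem_ker, h]
    constructor
    · intro h1
      funext i
      exact h1 _ (hI.subset i.2)
    · intro h1 w hw
      have h0 : ∀ i ∈ I, (D : Derivation ℚ ℂ ℂ) i = 0 := fun i hi => congrFun h1 ⟨i, hi⟩
      exact kills_clF F D.2 h0 (by rw [hI.closure_eq_closure]; exact subset_cl _ hw)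
  rw [finrank_range_eq f ρ hker, LinearMap.range_eq_top.2 hsurj, finrank_top,
    finrank_fintype_fun_eq_card]
  have h1 : I.encard = (MK F).eRk S := hI.encard_eq_eRk
  rw [← h1, ← Set.coe_fintypeCard]

/-! ## Rational combinations -/

end Pool.Agent.TH813.Ell
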